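import Pool.Agent.H67R4.SR.Final

set_option autoImplicit false

namespace Pool.Agent.Results.MP_6092f3_al.RigidImpliesDense

open Pool.Agent.H67R3.FSR Pool.Agent.H67R4.SR

/-- For every `N ≥ 2`: if a set `S` of primitive elements of the free group of rank `N` is
spectrally rigid then the closure of the set of the projective classes of the counting currents of
the elements of `S`, in the space of projective currents, is the closure of the set of the classes
of all primitive elements. -/
theorem result (N : ℕ) (hN : 2 ≤ N) (S : Set (FreeGroup (Fin N)))
    (hS : ∀ g ∈ S, Primitive g) (hrig : SpectrallyRigid S) :
    closure (Classes S) = closure (Classes {g : FreeGroup (Fin N) | Primitive g}) :=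
  rigid_dense' hN hS hrig

end Pool.Agent.Results.MP_6092f3_al.RigidImpliesDense
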